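import Pool.Agent.K6.H94.XB.Res

/-!
# The noncommutative Hodge conjecture for `𝒞 ⊠ D^perf(X ^ n)`, `X` any variety, `𝒞` any admissible
subcategory of bounded Hochschild amplitude: one power of `X` suffices, with an **explicit** exponent which
depends only on the Betti numbers and the dimension of `X` and on the amplitude

Let `T` be a Hodge theory on a class of smooth projective varieties (in the intended use all smooth
projective complex varieties and `X ↦ H(X, ℚ)`), and let `X` be **any** variety of the class (with a
polarised cohomology). An admissible subcategory `𝒞` of `D^perf(Z)` enters through the Mukai vector
`q ∈ H(Z × Z)` of the kernel of its projection functor (`IsAdmissible`): the correspondence `q` is an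
idempotent of `H(Z)`, its image is the topological K-theory of `𝒞` (of degrees `0` and `1`, with rational
coefficients), the Hochschild homology `HH_n(𝒞)` is the part of this image in `⨁_{a - b = n} H^(a,b)(Z)`,
and the noncommutative Hodge conjecture for `𝒞` (`NCHodge`) says that the Hodge classes in the image are
algebraic, that is combinations of Mukai vectors of objects of `𝒞`. The category `𝒞 ⊠ D^perf(Y)` is the
admissible subcategory of `D^perf(Z × Y)` given by the external product of `q` and the diagonal of `Y`.

**Theorem.** Let `b`, `d`, `w` be natural numbers and `N + 1` at least the explicit number
`factors b d w`. Then for **all** `X` of dimension at most `d` with sum of Betti numbers at most `b`, **all**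
`Z` and **all** admissible subcategories `𝒞` of `D^perf(Z)` with `HH_n(𝒞) = 0` for `|n| > w`: the
noncommutative Hodge conjecture for `𝒞 ⊠ D^perf(X ^ (N + 1))` implies the noncommutative Hodge conjecture for
`𝒞 ⊠ D^perf(X ^ n)` for **all** `n`, and for all admissible subcategories `𝒟` whose noncommutative motive
comes from these categories. (It is assumed that the Euler form of `𝒞` is not zero, or that the Hodge
conjecture holds for `X ^ (N + 1)`; if the Euler form of `𝒞` is not zero, as for the Kuznetsov components of
cubic fourfolds and all `D^perf(Z)`, then the latter follows from the hypothesis.)

For instance, for all varieties `X` with given bounds there is one number for all K3 categories `𝒞` (the Kuznetsov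
components of all cubic fourfolds and Gushel-Mukai varieties of even dimension, twisted K3 surfaces) and
all surfaces, `w = 2`; and one for all curves and the Kuznetsov components of all Fano threefolds,
`w = 1`. The varieties `Z` and the categories `𝒞` form unbounded families, with infinitely many different
Hodge groups and endomorphism algebras, and their Hodge structures can be related to the one of `X` in any
way. The dimension of `Z` does not enter, only the amplitude of `𝒞`.

The result `BoundedByAmplitude` is about special abelian varieties `X`, and uses the first
fundamental theorem for their Hodge groups; nothing is assumed about `X` here.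

*The proof.* A Hodge class in `𝒞 ⊠ D(X ^ n)` gives a map `H(Z) → H(X ^ n)` which factors through the
transposed projector, so its image is a Hodge substructure of level at most `w` (the Hochschild
homology of `𝒞` is dual to the one of the transposed projector, by the trace form). The identity of all
tensors of level at most `w`, for all `n`, is a sum of products `H(X ^ n) → H(X ^ (N + 1)) → H(X ^ n)` of
Hodge classes (`Pool.Agent.K6.H94.FG`, double commutant theorem and Galois descent), since the matrix
coefficients of bounded level have bounded degree. (1) *Explicit finiteness.* Consider the functions `g ↦ φ(g v)` on the Hodge group `G` of `X`, for all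
`n`, all tensors `v ∈ H(X, ℂ)^{⊗ n}` on whose orbit all the conjugates of the Hodge cocharacter have weights
between `-w` and `w`, and all linear forms `φ`. They are polynomials in the matrix entries of `g` of
**explicitly bounded degree** (`Pool.Agent.K6.H94.XB.fnl`, a general theorem on groups generated by
cocharacters with bounded weights which preserve a non-degenerate form). Proof: let `g₀` be a product of
`r` conjugates of the cocharacter with parameters `T_1, …, T_r` and `r ≤ b ^ 2` maximal such that `r` of
its entries are algebraically independent; then `g₀` is a generic point, and the values at `g₀` of these
functions are Laurent polynomials in `T_1, …, T_r` with all exponents between `-w` and `w`. Counting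
dimensions gives a relation of bounded degree between `s`, `θ + s f` and `r` independent linear forms in
the entries, for each such function `f`, where `θ` is a linear form which is a primitive element;
differentiation with respect to `s` at `s = 0` gives `f = P / Q` with polynomials `P`, `Q` of bounded degree
in the entries (Gauss' lemma shows that `Q ≠ 0`). So there is a common denominator of bounded degree for all
these functions; the space `J` of all such denominators is stable under translations by `G`; with a basis
`b_l` of `J` dual to the evaluations at points `y_l` of `G` one gets
`f(x) h(1) = ∑ (h(y_l x) f(x)) b_l(x⁻¹)` for `h` in `J`, and `x⁻¹` is a linear function of `x`. So every Hodge class in `𝒞 ⊠ D(X ^ n)` is a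
sum of compositions of Hodge classes in `𝒞 ⊠ D(X ^ (N + 1))` and Hodge classes on powers of `X`; the latter
are algebraic by the bounded power theorem (starting files).

The pieces of the proof of the explicit bound are by helper37, helper61, helper35, helper44, helper40 and
helper39.
-/

open CategoryTheory AlgebraicGeometry

universe u

namespace Pool.Agent.Results.MP_43e44c_ag.AnyVarietyTimesAmplitude

open Pool.Agent.H914 Pool.Agent.Y121.AHS Pool.Agent.K6.H94.NX
open Pool.Agent.K6.H94.XB (factors)
open Pool.Agent.K6.H61.DH (Form IsPol)
open Pool.Agent.Y133.Half (pw)

variable {k : Type u} [Field k] {𝒱 : VarClass k} {ops : CycleOps 𝒱}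

/-- **For all admissible subcategories `𝒞` with `HH_n(𝒞) = 0` for `|n| > w`, the noncommutative Hodge
conjecture for `𝒞 ⊠ D^perf(X ^ (N + 1))` implies the one for `𝒞 ⊠ D^perf(X ^ n)` for all `n`**, if
`N + 1 ≥ factors b d w`, where `d` is a bound of the dimension and `b` a bound of the sum of the Betti
numbers of `X`. `pw X n` is the product of `n + 1` copies of `X`. -/
theorem result (T : HodgeTheory ops) (b d w N : ℕ) (hN : factors b d w ≤ N + 1)
    (X : 𝒱.Obj) (ψ : Form T X) (hψ : IsPol T X ψ) (hb : Module.finrank T.W.K (T.W.H X) ≤ b)
    (hd : X.dim ≤ d) (Z : 𝒱.Obj) (q : Kernel T Z) (hq : IsAdmissible T q) (hw : AmplitudeLE T q w)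
    (hO : HasObject T q ∨ HodgeConj T (pw X N)) (h : NCHodge T (box T q (pw X N))) :
    (∀ n, NCHodge T (box T q (pw X n))) ∧
      ∀ (Y : 𝒱.Obj) (p : Kernel T Y), IsAdmissible T p → FromBoxes T q X p → NCHodge T p :=
  nch_mainN hψ (Pool.Agent.K6.H94.XB.bnd_le hb hd hN) hq hw hO h

end Pool.Agent.Results.MP_43e44c_ag.AnyVarietyTimesAmplitude
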