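import Mathlib
import Pool.Agent.TH131.GHC.Final
import Pool.Agent.K6.H94.NC.Fin

/-!
# The noncommutative Hodge conjecture for `D(A ^ m) ⊠ 𝒟`, `𝒟` an arbitrary admissible subcategory:
reduction to `m ≤` the Hochschild amplitude of `𝒟`

*The abelian variety.* Let `A = ∏ A i`, where the `A i` are simple complex abelian varieties such that
the centre of the endomorphism algebra of `A i` is totally real (types I, II and III in the
classification of Albert) and such that some nonzero complex matrix of rank at most two kills all
Hodge tensors of `A i`. For instance: all abelian varieties with endomorphism ring `ℤ` (or real or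
quaternion multiplication of indefinite type) and with maximal Hodge group, hence the very general
ones, those with endomorphism ring `ℤ` and odd dimension, and all elliptic curves without complex
multiplication. The complex torus `A i` is `ℂ ^ g / (ℤ ^ g + Z ℤ ^ g)`, `Z` the `i`-th of the period
matrices `Z i` (every complex abelian variety is isogenous to such a torus), and `DZ (bigD ℂ Z)` is the
Hodge operator of `H_1(A, ℂ)`.

*The admissible subcategory.* Let `𝒟` be **any** admissible subcategory of `D^perf(Y)`, for any smooth
proper complex variety `Y`, and suppose that the Hochschild homology `HH_n(𝒟)` vanishes for `|n| > w`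
(`Amplitude`); for example `w = dim Y`, or `w = 2` for the K3 categories of cubic fourfolds and
Gushel-Mukai varieties, and `w = 1` for the Kuznetsov components of Fano threefolds and of cubic
fivefolds. Nothing else is assumed: the Hodge structures of `A` and `𝒟` can be dependent in any way. The starting result `BoxWithCMVarieties` on `D(A) ⊠ 𝒟` is about abelian
varieties `A` with complex multiplication and admissible subcategories `𝒟` whose Hodge structures are
unrelated to the CM field; then there are no Hodge classes besides the products of divisor classes of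
`A` and Hodge classes of `𝒟`, which is not true here.

*The objects* (`IsObjectClasses`). `K m` is the span of the classes of the objects of the admissible
subcategory `D(A ^ m) ⊠ 𝒟` of `D^perf(A ^ m × Y)`. It is used that the inverse images under homomorphisms
`A ^ m → A ^ n` and the multiplication with line bundles on `A ^ m` preserve the classes of objects.

**Theorem.** The noncommutative Hodge conjecture for `D(A ^ w) ⊠ 𝒟` implies the noncommutative Hodge
conjecture for `D(A ^ m) ⊠ 𝒟`, for all `m` (and so for all `D(∏ A i ^ (m i)) ⊠ 𝒟`). For instance: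

* for `w = 2` (K3 categories, surfaces) it is enough to consider `D(A × A) ⊠ 𝒟`, that is the
  homomorphisms of Hodge structures from `H_1(A) ⊗ H_1(A)` to `K^top_0(𝒟)(1)`, those from `H_1(A)` to
  `K^top_1(𝒟)`, and the Hodge classes of `𝒟`;
* for `w = 1` it is enough to consider `D(A) ⊠ 𝒟`, that is the homomorphisms from `A` to the
  intermediate Jacobian of `𝒟` and the Hodge classes of `𝒟`.

The bound is sharp: if `𝒟 = D(A ^ w)` the components of the classes of the diagonals in
`H_1(A) ^ {⊗ w} ⊗ K^top(𝒟)` do not come from fewer factors.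

*The proof.* The Hodge classes of `D(A ^ m) ⊠ 𝒟` are linear combinations of products of divisor classes
on `A ^ m` and of inverse images of Hodge classes of `D(A ^ a) ⊠ 𝒟` with `a ≤ w` in
`H^1(A) ⊗ ... ⊗ H^1(A) ⊗ K^top(𝒟)`. Namely, if `s` is a Hodge tensor in `H^1(A)^{⊗ κ} ⊗ K^top(𝒟)` then the
components of `s` generate a sub-Hodge structure of `H^1(A)^{⊗ κ}` of level at most `w`. If `κ > w`, it
belongs to the ideal generated by the divisor classes, by a theorem of the starting files
(`Pool.Agent.TH131.GHC.le_IdQ`; it depends on the first fundamental theorem of invariant theory). On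
this ideal the operator `∑ β ∘ (contraction with the dual of β)`, where `β` runs through the classes of
divisors in two of the variables, is injective by the positivity of the polarization, hence bijective
on the Hodge tensors, and one concludes by induction (`Pool.Agent.K6.H94.DL.le_family`).
-/

set_option autoImplicit false

namespace Pool.Agent.Results.MP_43e44c_ag.BoundedByAmplitude

open Matrix Pool.Agent.H204R3.CM Pool.Agent.H194R3.CM Pool.Agent.W437.HC Pool.Agent.W437.HD
  Pool.Agent.W437.HP Pool.Agent.TH131.GHC Pool.Agent.K6.H94.DL Pool.Agent.K6.H94.NC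

/-- The rational matrix `φ` is an endomorphism (with rational coefficients) of the abelian variety
`ℂ ^ g / (ℤ ^ g + Z ℤ ^ g)`: its action on the rational homology comes from a complex linear map
`M` of the tangent space (`perOne Z` is the inclusion `(a, b) ↦ a + Z b`). -/
def IsEndomorphism {g : ℕ} (Z : Matrix (Fin g) (Fin g) ℂ)
    (φ : Matrix (Fin g ⊕ Fin g) (Fin g ⊕ Fin g) ℚ) : Prop :=
  ∃ M : Matrix (Fin g) (Fin g) ℂ, ∀ w, perOne Z (φ.mulVec w) = M.mulVec (perOne Z w)

/-- The centre of the endomorphism algebra is totally real: an endomorphism which commutes with all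
endomorphisms is symmetric for the principal polarization. -/
def HasRealCentre {g : ℕ} (Z : Matrix (Fin g) (Fin g) ℂ) : Prop :=
  ∀ φ, IsEndomorphism Z φ → (∀ ψ, IsEndomorphism Z ψ → φ * ψ = ψ * φ) →
    φ.transpose * fromBlocks 0 1 (-1) 0 = fromBlocks 0 1 (-1) 0 * φ

/-- The matrix `X`, acting as a derivation, kills all rational tensors on the homology which are
killed by the Hodge operator `DZ Z = -i J` (the Hodge tensors), `J` the matrix of the complex
structure. -/
def KillsHodgeTensors {g : ℕ} (Z : Matrix (Fin g) (Fin g) ℂ)
    (X : Matrix (Fin g ⊕ Fin g) (Fin g ⊕ Fin g) ℂ) : Prop :=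
  ∀ (n : ℕ) (c : (Fin n → Fin g ⊕ Fin g) → ℚ), act (DZ Z) (cst ℂ c) = 0 → act X (cst ℂ c) = 0

/-- **The noncommutative Hodge conjecture for `D(A ^ w) ⊠ 𝒟` implies the noncommutative Hodge conjecture
for `D(A ^ m) ⊠ 𝒟` for all `m`, if `𝒟` is any admissible subcategory with `HH_n(𝒟) = 0` for `|n| > w`.** -/
theorem result {n v : ℕ} {d : Fin n → ℕ} (Z : ∀ i, Matrix (Fin (d i)) (Fin (d i)) ℂ)
    (hper : ∀ i, (Z i).transpose = Z i ∧ ((Z i).map Complex.im).PosDef)
    (hsimple : ∀ i, IsSimpleAV (Z i)) (hcentre : ∀ i, HasRealCentre (Z i))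
    (hrank : ∀ i, ∃ X, X ≠ 0 ∧ X.rank ≤ 2 ∧ KillsHodgeTensors (Z i) X)
    (V : Coh v) (P : Matrix (Fin v) (Fin v) ℚ) (hP : IsProjector V P)
    (w : ℕ) (hw : Amplitude V P w)
    (K : ∀ m : ℕ, Submodule ℚ (Cls (Fin m × (Fin (NB d) ⊕ Fin (NB d))) v ℚ))
    (hK : IsObjectClasses (DZ (bigD ℂ Z)) K)
    (hQ : NCHodge (DZ (bigD ℂ Z)) V P K w) (m : ℕ) :
    NCHodge (DZ (bigD ℂ Z)) V P K m := by
  have hp : ∀ i, Pool.Agent.W437.HR.HasPcs (DZ (Z i)) := by
    intro i
    obtain ⟨X, hX0, hXr, hX⟩ := hrank i
    refine Pool.Agent.TH125.hasPcs_of_rank (hper i).1 (hper i).2 (hsimple i) ?_ hX hX0 hXr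
    intro φ M hφ hc
    refine hcentre i φ ⟨M, hφ⟩ fun ψ hψ => ?_
    obtain ⟨N, hN⟩ := hψ
    exact hc ψ N hN
  have hZ : ∀ i, (Z i).transpose = Z i := fun i => (hper i).1
  have hpos : ∀ i, (imM (Z i)).PosDef := fun i => (hper i).2
  exact main_nc (polOf (bigD_symm hZ) (imM_bigD_posDef Z hpos)) (coreP_prod Z hZ hpos hp)
    (fun m c hc => Pool.Agent.W437.HR.mem_MS_prod Z hZ hpos hp c hc) hP hK hw hQ m

end Pool.Agent.Results.MP_43e44c_ag.BoundedByAmplitude
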