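import Mathlib
import Pool.Agent.K6.H79.CMA.NC

/-!
# The noncommutative Hodge conjecture for `D(A) ⊠ 𝒟`, for the abelian varieties `A` of all CM types, and
all unrelated admissible subcategories `𝒟`

Let `𝒟` be an admissible subcategory of `D^perf(Z)`, for a smooth proper complex variety `Z`. Its
topological K-theory `K^top(𝒟) = K^top_0(𝒟) ⊕ K^top_1(𝒟)` is a direct summand of the one of `Z`, with
its Hodge structure. In the statement the rational topological K-theory of `Z` (the rational
cohomology, by the Chern character) is `V : Coh v`, a space `ℚ ^ v` with the Hodge operator `V.z`, the
multiplication by `p - q` on the classes of type `(p, q)`, and `𝒟` is given by the projector `P` of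
this space defined by the projection functor onto `𝒟` (`IsProjector`). So `K^top(𝒟) ⊗ ℚ` is the image
of `P`, and its Hodge classes (`IsHodgeD`) are the elements of the image of `P` that are killed by
`V.z`, that is, whose complexification is in `HH_0(𝒟)`.

Let `E i` be finitely many CM fields, `Φ i` CM types of the fields `E i`, and `A` any product of
powers of the abelian varieties of CM types `(E i, Φ i)`. **Nothing is assumed about the types and the
fields**: the fields may be isomorphic and the types may be degenerate.

Let `𝒟` be **any** admissible subcategory of any `D^perf(Z)` which is unrelated to the fields `E i`
(`Unrelated`, starting files): for each vector `w ≠ 0` in `K^top(𝒟) ⊗ ℂ` such that for all automorphisms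
`σ` of `ℂ` the conjugate `σ w` is of pure type, with `p - q = d σ`, a function `n` on the complex
embeddings of `E i` with `n (conj φ) = - n φ` which is invariant under all automorphisms `τ` with
`d (σ τ) = d σ` for all `σ` is zero. This is true if `K^top(𝒟)` has no sub-Hodge structures with
complex multiplication except those of type `(0, 0)`; or let the rank of `K^top(𝒟)` be less than
`2 * dim S` for all nonzero spaces `S` of functions `n` as above that are stable under the
automorphisms of `ℂ` (this is the second alternative in the statement, it implies the first).

**The theorem.**

* Every Hodge class in `K^top_0(D(A) ⊠ 𝒟) ⊗ ℚ` is a sum of products `f ⊗ x` of Hodge classes `f` of `A`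
  and `x` in `K^top_0(𝒟) ⊗ ℚ` (`boxHodgeSpan`).
* Let the Euler form `χ` be nonzero for some objects of `𝒟`, for instance for a K3 category. Then
  **the noncommutative Hodge conjecture for `D(A) ⊠ 𝒟` is equivalent to the Hodge conjecture for `A` and
  the noncommutative Hodge conjecture for `𝒟`.**

In the starting files (`BoxWithCMVarieties`) the Hodge classes of `D(A) ⊠ 𝒟` are determined for the
nondegenerate CM types, for which all Hodge classes on the powers of `A` are generated by divisor
classes. The theorem includes the abelian varieties with exceptional Hodge classes, for example those
for which the Hodge conjecture is known although not all Hodge classes are generated by divisor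
classes (the Jacobians of many Fermat curves, by Shioda and Aoki, and the abelian fourfolds of Weil
type, by Markman), and for these `A` it proves the noncommutative Hodge conjecture for `D(A) ⊠ 𝒟` for
all unrelated `𝒟` for which it is known: the K3 categories of cubic fourfolds and Gushel-Mukai
varieties, all admissible subcategories of `D^perf(Z)` for the varieties `Z` of dimension at most
three, and so on.

The classes of the objects are given by `IsObjectSystem`: the spans `algX`, `alg`, `algA` of the
classes of objects of `D(A)`, `𝒟` and `D(A) ⊠ 𝒟`, with the properties that the box product of two
objects, the restriction to the fibre over the origin of `A` and `RHom(N, M)`, for `N` in `𝒟` and `M` in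
`D(A) ⊠ 𝒟`, are objects of the respective categories.

**The proof.** The coefficient of a Hodge class at a product `I` of embeddings of the `E i` is a vector
`w` as above, with `d σ = - s(σ I)`, where `s` is the number of the factors in the CM types minus the
number of the other factors. The function `n φ = ∑ σ, s(σ I) ε(σ φ)` on the embeddings (`ε = 1` on the
CM types and `ε = -1` outside) is invariant under the automorphisms `τ` as above, so that it is zero,
and the sum of its products with the multiplicities of the embeddings in `I` is the sum of the squares
of the numbers `s(σ I)`.
-/

set_option autoImplicit false

namespace Pool.Agent.Results.MP_43e44c_ag.BoxWithAllCMTypes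

open NumberField Pool.Agent.H204R3.CM Pool.Agent.K6.H79.CMA

/-- **The noncommutative Hodge conjecture for `D(A) ⊠ 𝒟` is equivalent to the Hodge conjecture for `A`
and the noncommutative Hodge conjecture for `𝒟`, for the abelian varieties `A` of all CM types and all
unrelated `𝒟`.** -/
theorem result {ι : Type} [Fintype ι] (E : ι → Type) [∀ i, Field (E i)] [∀ i, NumberField (E i)]
    [∀ i, IsCMField (E i)] (Φ : ∀ i, Set (E i →+* ℂ)) (hΦ : ∀ i, IsCMType (Φ i)) :
    NCHodgeMultiplicative Φ :=
  ncHodge_multiplicative hΦ

end Pool.Agent.Results.MP_43e44c_ag.BoxWithAllCMTypes
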