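import Mathlib
import Pool.Agent.K6.H79.CMRows
import Pool.Agent.R299.NCH.Main
import Pool.Agent.Y1.KN.Use

/-!
# The noncommutative Hodge conjecture for `D(A) ⊠ 𝒟`, for the abelian varieties `A` of most CM types of
every CM field of degree `2 r ^ k`, and all unrelated admissible subcategories `𝒟`

Let `𝒟` be an admissible subcategory of `D^perf(Z)`, for a smooth proper complex variety `Z`. Its
topological K-theory `K^top(𝒟) = K^top_0(𝒟) ⊕ K^top_1(𝒟)` is a direct summand of the one of `Z`, with
its Hodge structure. In the statement the rational topological K-theory of `Z` (the rational
cohomology, by the Chern character) is `V : Coh v`, a space `ℚ ^ v` with the Hodge operator `V.z`, the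
multiplication by `p - q` on the classes of type `(p, q)`, and `𝒟` is given by the projector `P` of
this space defined by the projection functor onto `𝒟` (`IsProjector`). So `K^top(𝒟) ⊗ ℚ` is the image
of `P`, and its Hodge classes (`IsHodgeD`) are the elements of the image of `P` that are killed by
`V.z`, that is, whose complexification is in `HH_0(𝒟)`.

Let `K i` be finitely many CM fields that are pairwise independent: for `i ≠ k` and all complex
embeddings `φ` of `K i` and `ψ` of `K k` some automorphism of `ℂ` is the identity on `φ (K i)` and the
complex conjugation on `ψ (K k)` (no condition for one field), and let `Φ i` be CM types of the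
fields `K i`.

**The property (`NCHodgeTimes`, starting files) of the family `Φ`.** Let `A` be any product of powers
of the abelian varieties of CM types `(K i, Φ i)`, and let `𝒟` be **any** admissible subcategory of any
`D^perf(Z)` which is unrelated to the fields `K i` (`Unrelated`: for each vector `w ≠ 0` in
`K^top(𝒟) ⊗ ℂ` such that for all automorphisms `σ` of `ℂ` the conjugate `σ w` is of pure type, with
`p - q = d σ`, a function `n` on the complex embeddings of `K i` with `n (conj φ) = - n φ` which is
invariant under all automorphisms `τ` with `d (σ τ) = d σ` for all `σ` is zero; for instance `K^top(𝒟)`
has no sub-Hodge structures with complex multiplication except those of type `(0, 0)`, or its rank is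
less than `2 * dim S` for all nonzero spaces `S` of functions `n` as above that are stable under the
automorphisms of `ℂ`). Then

* every Hodge class in `K^top_0(D(A) ⊠ 𝒟) ⊗ ℚ` is a sum of products `f ⊗ x`, where `f` is a combination
  of products of divisor classes on `A` and `x` is a Hodge class in `K^top_0(𝒟) ⊗ ℚ`;
* **the noncommutative Hodge conjecture for `D(A) ⊠ 𝒟` is equivalent to the noncommutative Hodge
  conjecture for `𝒟`.** In particular it is true for `D(A) ⊠ 𝒟` if it is true for `𝒟`: for the K3
  categories of cubic fourfolds and Gushel-Mukai varieties, for all admissible subcategories of
  `D^perf(Z)` for the varieties `Z` of dimension at most three, and so on.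

**The theorem.**

* (`MostTypes`) For **every CM field of degree `2 g = 2 r ^ k`**, `r` a prime number (and `g ≥ 8` if
  `r = 2`), the property holds for **at least `(1 - 1 / r) 2 ^ g` of the `2 ^ g` CM types**; nothing
  is assumed about the Galois group and the subfields. For finitely many fields the proportions are
  multiplied.
* (`OneOfTwoTypes`) For these fields there is a set `B` of embeddings, stable under complex
  conjugation, such that for **every** CM type `Φ` it holds for `Φ` or for the symmetric difference of
  `Φ` and `B`.
* (`SixteenPercentOfTypes`) There is a number `g₀` such that for every CM field that is **abelian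
  over `ℚ`**, of any degree `2 g ≥ 2 g₀`, it holds for at least 16 percent of all CM types.

In the starting files (`BoxWithCMVarieties`) the property is proved for all types with the exception
of a proportion at most `C * rate E g p`, which is more than one for all fields with many CM
subfields, for instance for multiquadratic fields. The theorem combines it with the count of the CM
types without relations in `Q29/EP` (starting files), which was applied there to motivic cohomology
over finite fields.
-/

set_option autoImplicit false

namespace Pool.Agent.Results.MP_43e44c_ag.BoxWithMostCMTypes

open NumberField Module Finset Pool.Agent.H204R3.CM Pool.Agent.H977R3.CM Pool.Agent.Y1.KN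
  Pool.Agent.Y1.HZ Pool.Agent.R299.NCH Pool.Agent.K6.H79

/-- For all products `A` of powers of the abelian varieties of CM types `(K i, Φ i)` and all
admissible subcategories `𝒟` unrelated to the fields `K i`: the Hodge classes of `D(A) ⊠ 𝒟` are sums of
products, and the noncommutative Hodge conjecture for `D(A) ⊠ 𝒟` is equivalent to the one for `𝒟`. -/
def Q : CMProperty := fun _ _ _ _ _ _ Φ => NCHodgeTimes Φ

theorem withoutRelations : ForTypesWithoutRelations Q := fun _ _ _ _ _ _ _ hind hΦ hno =>
  ncHodgeTimes_of_hodgeTimes (hodgeTimes_of_not_degenerate hΦ hind fun i =>
    not_degenerate (hΦ i) (Pool.Agent.Q29.DP.notMem_degTypes_of_noRelations (hno i)))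

/-- **The noncommutative Hodge conjecture for `D(A) ⊠ 𝒟` is equivalent to the noncommutative Hodge
conjecture for `𝒟`, for the abelian varieties `A` of most CM types of every CM field of degree
`2 r ^ k`, and of 16 percent of the CM types of the abelian CM fields of large degree.** -/
theorem result : MostTypes Q ∧ OneOfTwoTypes Q ∧ SixteenPercentOfTypes Q :=
  ⟨mostTypes withoutRelations, oneOfTwoTypes withoutRelations,
    sixteenPercentOfTypes withoutRelations⟩

end Pool.Agent.Results.MP_43e44c_ag.BoxWithMostCMTypes
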